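import Pool.Agent.H.MP_8879ae_al.A

set_option autoImplicit false

namespace Pool.Agent.H.MP_4da284_al

open Pool.Agent.H.MP_8879ae_al

variable {K B : Type} [Field K] [CharZero K] [Ring B] [Algebra K B]

abbrev Z2 : Type := Fin 2 → ℤ

def Fam (χ : Z2 → B) : Prop := (∀ a, χ a ≠ 0) ∧ ∀ a b, χ a * χ b = χ 0 * χ (a + b)

def Good (S : Subalgebra K B) : Prop :=
  (∀ x ∈ S, ∀ y ∈ S, x ≠ 0 → y ≠ 0 → x * y ≠ 0) ∧
  ∀ χ : Z2 → B, (∀ a, χ a ∈ S) → Fam χ → ∃ a, a ≠ 0 ∧ ∃ c : K, χ a = c • χ 0

omit [CharZero K] in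
theorem w_const (S : Subalgebra K B) (w : B → ℕ)
    (hw : ∀ x ∈ S, ∀ y ∈ S, x ≠ 0 → y ≠ 0 → w (x * y) = w x + w y)
    {χ : Z2 → B} (hS : ∀ a, χ a ∈ S) (h : Fam χ) (a : Z2) : w (χ a) = w (χ 0) := by
  have h1 : ∀ a b, w (χ a) + w (χ b) = w (χ 0) + w (χ (a + b)) := fun a b => by
    rw [← hw _ (hS _) _ (hS _) (h.1 _) (h.1 _), h.2, hw _ (hS _) _ (hS _) (h.1 _) (h.1 _)]
  have h2 : ∀ a, w (χ 0) ≤ w (χ a) := by
    intro a
    by_contra hlt
    have : ∀ n : ℕ, w (χ (n • a)) + n ≤ w (χ 0) := by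
      intro n
      induction n with
      | zero => simp
      | succ n ih =>
        have := h1 (n • a) a
        rw [succ_nsmul]
        omega
    have := this (w (χ 0) + 1)
    omega
  have h3 := h1 a (-a)
  rw [add_neg_cancel] at h3
  have := h2 a
  have := h2 (-a)
  omega

omit [CharZero K] in
theorem w_ge (S : Subalgebra K B) (w : B → ℕ)
    (hd : ∀ x ∈ S, ∀ y ∈ S, x ≠ 0 → y ≠ 0 → x * y ≠ 0)
    (hw : ∀ x ∈ S, ∀ y ∈ S, x ≠ 0 → y ≠ 0 → w (x * y) = w x + w y)
    {χ : Z2 → B} (hS : ∀ a, χ a ∈ S) (h : Fam χ) (a : Z2) (c : K) (hy : χ a - c • χ 0 ≠ 0) :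
    w (χ 0) ≤ w (χ a - c • χ 0) := by
  set y := χ a - c • χ 0 with hyd
  have hyS : y ∈ S := S.sub_mem (hS _) (S.smul_mem (hS _) _)
  have h1 : ∀ z ∈ Submodule.span K (Set.range χ), ∃ z' ∈ Submodule.span K (Set.range χ),
      y * z = χ 0 * z' := by
    intro z hz
    induction hz using Submodule.span_induction with
    | mem z hz =>
      obtain ⟨b, rfl⟩ := hz
      refine ⟨χ (a + b) - c • χ b, Submodule.sub_mem _ (Submodule.subset_span ⟨_, rfl⟩)
        (Submodule.smul_mem _ _ (Submodule.subset_span ⟨_, rfl⟩)), ?_⟩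
      rw [hyd, sub_mul, h.2, mul_sub, smul_mul_assoc, mul_smul_comm]
    | zero => exact ⟨0, Submodule.zero_mem _, by simp⟩
    | add u v _ _ hu hv =>
      obtain ⟨u', hu', e⟩ := hu
      obtain ⟨v', hv', e'⟩ := hv
      exact ⟨u' + v', Submodule.add_mem _ hu' hv', by rw [mul_add, mul_add, e, e']⟩
    | smul r u _ hu =>
      obtain ⟨u', hu', e⟩ := hu
      exact ⟨r • u', Submodule.smul_mem _ _ hu', by rw [mul_smul_comm, mul_smul_comm, e]⟩
  have hsub : ∀ z ∈ Submodule.span K (Set.range χ), z ∈ S := fun z hz =>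
    (Submodule.span_le (p := Subalgebra.toSubmodule S)).2 (by rintro _ ⟨b, rfl⟩; exact hS b) hz
  by_contra hlt
  have : ∀ n : ℕ, ∃ z ∈ Submodule.span K (Set.range χ), z ≠ 0 ∧ w z + n ≤ w (χ 0) := by
    intro n
    induction n with
    | zero => exact ⟨χ 0, Submodule.subset_span ⟨_, rfl⟩, h.1 0, le_rfl⟩
    | succ n ih =>
      obtain ⟨z, hz, hz0, hle⟩ := ih
      obtain ⟨z', hz', e⟩ := h1 z hz
      have hz'0 : z' ≠ 0 := by
        rintro rfl
        exact hd _ hyS _ (hsub z hz) hy hz0 (by rw [e, mul_zero])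
      have := congrArg w e
      rw [hw _ hyS _ (hsub z hz) hy hz0, hw _ (hS 0) _ (hsub z' hz') (h.1 0) hz'0] at this
      exact ⟨z', hz', hz'0, by omega⟩
  obtain ⟨z, -, -, hle⟩ := this (w (χ 0) + 1)
  omega

theorem nsmul_ne {c : ℕ} (hc : c ≠ 0) {x : B} (h : x ≠ 0) (K : Type) [Field K] [CharZero K]
    [Algebra K B] : c • x ≠ 0 := by
  rw [← Nat.cast_smul_eq_nsmul K]
  exact smul_ne_zero (by exact_mod_cast hc) h

theorem good_step (S' S : Subalgebra K B) (δ : B →ₗ[K] B)
    (hδ : ∀ x y, δ (x * y) = δ x * y + x * δ y) (hst : ∀ x ∈ S, δ x ∈ S)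
    (hln : ∀ x ∈ S, ∃ n, δ^[n] x = 0) (hker : ∀ x ∈ S, δ x = 0 → x ∈ S') (hg : Good S') :
    Good S := by
  classical
  let w : B → ℕ := fun x => if h : ∃ a, δ^[a] x ≠ 0 ∧ δ^[a + 1] x = 0 then h.choose else 0
  have uniq : ∀ (x : B) (a b : ℕ), δ^[a] x ≠ 0 → δ^[b + 1] x = 0 → a ≤ b := by
    intro x a b ha hb
    by_contra h
    exact ha (iter_zero δ.toAddMonoidHom (x := x) hb (by omega))
  have w_eq : ∀ (x : B) (a : ℕ), δ^[a] x ≠ 0 → δ^[a + 1] x = 0 → w x = a := by
    intro x a h1 h2
    have h : ∃ a, δ^[a] x ≠ 0 ∧ δ^[a + 1] x = 0 := ⟨a, h1, h2⟩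
    simp only [w, dif_pos h]
    exact le_antisymm (uniq x _ _ h.choose_spec.1 h2) (uniq x _ _ h1 h.choose_spec.2)
  have w_spec : ∀ x ∈ S, x ≠ 0 → δ^[w x] x ≠ 0 ∧ δ^[w x + 1] x = 0 := by
    intro x hx h0
    obtain ⟨n, hn⟩ := hln x hx
    obtain ⟨a, h1, h2⟩ := exists_top δ.toAddMonoidHom h0 (m := n) hn
    rw [w_eq x a h1 h2]
    exact ⟨h1, h2⟩
  have it_mem : ∀ (n : ℕ), ∀ x ∈ S, δ^[n] x ∈ S := by
    intro n x hx
    induction n with
    | zero => exact hx
    | succ n ih => rw [Function.iterate_succ_apply']; exact hst _ ih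
  have top_mem : ∀ x ∈ S, x ≠ 0 → δ^[w x] x ∈ S' := fun x hx h0 =>
    hker _ (it_mem _ x hx) (by rw [← Function.iterate_succ_apply' δ]; exact (w_spec x hx h0).2)
  have key : ∀ x ∈ S, ∀ y ∈ S, x ≠ 0 → y ≠ 0 → x * y ≠ 0 ∧ w (x * y) = w x + w y := by
    intro x hx y hy hx0 hy0
    obtain ⟨h1, h2⟩ := top_mul δ.toAddMonoidHom hδ (w_spec x hx hx0).2 (w_spec y hy hy0).2
    have h3 : δ^[w x + w y] (x * y) ≠ 0 := by
      erw [h1]
      exact nsmul_ne (Nat.choose_pos (by omega)).ne' (hg.1 _ (top_mem x hx hx0) _ (top_mem y hy hy0)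
        (w_spec x hx hx0).1 (w_spec y hy hy0).1) K
    refine ⟨fun e => h3 (by rw [e, iterate_map_zero]), w_eq _ _ h3 h2⟩
  refine ⟨fun x hx y hy hx0 hy0 => (key x hx y hy hx0 hy0).1, fun χ hS h => ?_⟩
  have hc := w_const S w (fun x hx y hy hx0 hy0 => (key x hx y hy hx0 hy0).2) hS h
  set m := w (χ 0) with hm
  have hsp : ∀ a, δ^[m] (χ a) ≠ 0 ∧ δ^[m + 1] (χ a) = 0 := fun a => by
    rw [← hc a]; exact w_spec _ (hS a) (h.1 a)
  obtain ⟨a, ha, c, hac⟩ := hg.2 (fun a => δ^[m] (χ a)) (fun a => by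
      have := top_mem _ (hS a) (h.1 a)
      rwa [hc a] at this) ⟨fun a => (hsp a).1, fun a b => by
      have h1 := (top_mul δ.toAddMonoidHom hδ (hsp a).2 (hsp b).2).1
      have h2 := (top_mul δ.toAddMonoidHom hδ (hsp 0).2 (hsp (a + b)).2).1
      rw [h.2, h2, ← sub_eq_zero, ← smul_sub] at h1
      by_contra hne
      exact nsmul_ne (Nat.choose_pos (by omega)).ne' (sub_ne_zero.2 (Ne.symm hne)) K h1⟩
  refine ⟨a, ha, c, ?_⟩
  by_contra hne
  have hy := sub_ne_zero.2 hne
  have hyS : χ a - c • χ 0 ∈ S := S.sub_mem (hS _) (S.smul_mem (hS _) _)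
  have h1 := w_ge S w (fun x hx y hy hx0 hy0 => (key x hx y hy hx0 hy0).1)
    (fun x hx y hy hx0 hy0 => (key x hx y hy hx0 hy0).2) hS h a c hy
  apply (w_spec _ hyS hy).1
  refine iter_zero δ.toAddMonoidHom (a := m) ?_ h1
  have : ∀ x, δ.toAddMonoidHom^[m] x = (δ ^ m) x := fun x => (Module.End.pow_apply δ m x).symm
  rw [this, map_sub, map_smul, Module.End.pow_apply, Module.End.pow_apply]
  exact sub_eq_zero.2 hac

open Polynomial in
theorem ore_step (G : Set B) (y g : B) (hg : ∀ s ∈ G, g * s = s * g)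
    (hy : ∀ s ∈ G, y * s - s * y ∈ Algebra.adjoin K G) (hgy : g * y - y * g = 1)
    (hG : Good (Algebra.adjoin K G)) : Good (Algebra.adjoin K (insert y G)) := by
  set S' := Algebra.adjoin K G with hS'
  let δ : B →ₗ[K] B := LinearMap.mulLeft K g - LinearMap.mulRight K g
  have hδa : ∀ x, δ x = g * x - x * g := fun _ => rfl
  have hδ : ∀ x y, δ (x * y) = δ x * y + x * δ y := fun x y => by
    simp only [hδa]; noncomm_ring
  have h0 : ∀ s ∈ S', δ s = 0 := by
    intro s hs
    induction hs using Algebra.adjoin_induction with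
    | mem s hs => rw [hδa, hg s hs, sub_self]
    | algebraMap r => rw [hδa, Algebra.commutes, sub_self]
    | add a b _ _ ha hb => rw [map_add, ha, hb, add_zero]
    | mul a b _ _ ha hb => rw [hδ, ha, hb]; simp
  have h1 : ∀ s ∈ S', y * s - s * y ∈ S' := by
    intro s hs
    induction hs using Algebra.adjoin_induction with
    | mem s hs => exact hy s hs
    | algebraMap r => rw [Algebra.commutes, sub_self]; exact S'.zero_mem
    | add a b _ _ ha hb =>
      have := S'.add_mem ha hb
      convert this using 1; noncomm_ring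
    | mul a b ha' hb' ha hb =>
      have := S'.add_mem (S'.mul_mem ha hb') (S'.mul_mem ha' hb)
      convert this using 1; noncomm_ring
  let ev : S'[X] → B := fun p => p.eval₂ (S'.val : S' →+* B) y
  have ev_add : ∀ p q, ev (p + q) = ev p + ev q := fun p q => eval₂_add _ _
  have ev_mon : ∀ (n : ℕ) (s : S'), ev (monomial n s) = s * y ^ n := fun n s => eval₂_monomial _ _
  have hpow : ∀ n : ℕ, δ (y ^ (n + 1)) = ((n + 1 : ℕ) : B) * y ^ n := by
    intro n
    induction n with
    | zero => simpa [hδa] using hgy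
    | succ n ih =>
      rw [pow_succ, hδ, ih, hδa y, hgy, mul_assoc, ← pow_succ]
      push_cast
      noncomm_ring
  have hder : ∀ p, δ (ev p) = ev (derivative p) := by
    intro p
    induction p using Polynomial.induction_on' with
    | add p q hp hq => rw [ev_add, map_add, map_add, ev_add, hp, hq]
    | monomial n s =>
      rw [derivative_monomial, ev_mon, ev_mon, hδ, h0 _ s.2, zero_mul, zero_add]
      rcases n with _ | n
      · simp [hδa]
      · rw [hpow]; simp [mul_assoc]
  have hit : ∀ n p, δ^[n] (ev p) = ev (derivative^[n] p) := by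
    intro n
    induction n with
    | zero => intro p; rfl
    | succ n ih => intro p; rw [Function.iterate_succ_apply, hder, ih, Function.iterate_succ_apply]
  have hrange : ∀ x ∈ Algebra.adjoin K (insert y G), ∃ p, x = ev p := by
    have hC : ∀ (s : S') (p), (s : B) * ev p = ev (C s * p) := by
      intro s p
      induction p using Polynomial.induction_on' with
      | add p q hp hq => rw [ev_add, mul_add, mul_add, ev_add, hp, hq]
      | monomial n t => rw [C_mul_monomial, ev_mon, ev_mon]; simp [mul_assoc]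
    have hY : ∀ p, ∃ q, y * ev p = ev q := by
      intro p
      induction p using Polynomial.induction_on' with
      | add p q hp hq =>
        obtain ⟨p', hp⟩ := hp
        obtain ⟨q', hq⟩ := hq
        exact ⟨p' + q', by rw [ev_add, mul_add, ev_add, hp, hq]⟩
      | monomial n t =>
        refine ⟨monomial (n + 1) t + monomial n ⟨_, h1 t t.2⟩, ?_⟩
        rw [ev_add, ev_mon, ev_mon, ev_mon, pow_succ']
        noncomm_ring
    have : ∀ x ∈ Algebra.adjoin K (insert y G), ∀ p, ∃ q, x * ev p = ev q := by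
      intro x hx
      induction hx using Algebra.adjoin_induction with
      | mem s hs =>
        rcases hs with rfl | hs
        · exact hY
        · exact fun p => ⟨_, hC ⟨s, Algebra.subset_adjoin hs⟩ p⟩
      | algebraMap r => exact fun p => ⟨_, hC ⟨_, S'.algebraMap_mem r⟩ p⟩
      | add a b _ _ ha hb =>
        intro p
        obtain ⟨p', hp⟩ := ha p
        obtain ⟨q', hq⟩ := hb p
        exact ⟨p' + q', by rw [add_mul, ev_add, hp, hq]⟩
      | mul a b _ _ ha hb =>
        intro p
        obtain ⟨q, hq⟩ := hb p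
        obtain ⟨q', hq'⟩ := ha q
        exact ⟨q', by rw [mul_assoc, hq, hq']⟩
    intro x hx
    obtain ⟨q, hq⟩ := this x hx 1
    exact ⟨q, by rw [← hq]; simp [ev]⟩
  have hle : S' ≤ Algebra.adjoin K (insert y G) := Algebra.adjoin_mono (Set.subset_insert _ _)
  have hev : ∀ p, ev p ∈ Algebra.adjoin K (insert y G) := by
    intro p
    induction p using Polynomial.induction_on' with
    | add p q hp hq => rw [ev_add]; exact Subalgebra.add_mem _ hp hq
    | monomial n t =>
      rw [ev_mon]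
      exact Subalgebra.mul_mem _ (hle t.2)
        (Subalgebra.pow_mem _ (Algebra.subset_adjoin (Set.mem_insert _ _)) _)
  refine good_step S' _ δ hδ (fun x hx => ?_) (fun x hx => ?_) (fun x hx h => ?_) hG
  · obtain ⟨p, rfl⟩ := hrange x hx
    rw [hder]; exact hev _
  · obtain ⟨p, rfl⟩ := hrange x hx
    refine ⟨p.natDegree + 1, ?_⟩
    rw [hit, iterate_derivative_eq_zero (by omega)]
    simp [ev]
  · obtain ⟨p, rfl⟩ := hrange x hx
    have : ∀ (n : ℕ) (p : S'[X]), p.natDegree ≤ n → δ (ev p) = 0 → ev p ∈ S' := by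
      intro n
      induction n with
      | zero =>
        intro p hp _
        rw [eq_C_of_natDegree_le_zero hp]
        simp [ev]
      | succ n ih =>
        intro p hp h
        have h2 : δ^[n + 1] (ev p) = 0 :=
          iter_zero δ.toAddMonoidHom (a := 1) (x := ev p) h (by omega)
        have h3 : (derivative^[n + 1] p).natDegree ≤ 0 :=
          (natDegree_iterate_derivative p (n + 1)).trans (by omega)
        rw [hit, eq_C_of_natDegree_le_zero h3, coeff_iterate_derivative] at h2
        have h4 : ((p.coeff (n + 1) : S') : B) = 0 := by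
          by_contra hne
          apply nsmul_ne (n + 1).factorial_ne_zero hne K
          rw [zero_add, Nat.descFactorial_self] at h2
          simp only [ev, eval₂_C] at h2
          rw [map_nsmul] at h2
          exact h2
        have h5 : p.coeff (n + 1) = 0 := Subtype.ext h4
        refine ih p ?_ h
        rw [natDegree_le_iff_coeff_eq_zero] at hp ⊢
        intro N hN
        rcases (show N = n + 1 ∨ n + 1 < N by omega) with rfl | h'
        · exact h5
        · exact hp N h'
    exact this _ p le_rfl h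

open Polynomial LaurentPolynomial in
omit [CharZero K] in
theorem good_laurent : Good (⊤ : Subalgebra K (LaurentPolynomial K)) := by
  refine ⟨fun x _ y _ hx hy => mul_ne_zero hx hy, fun χ _ h => ?_⟩
  have ex : ∀ f : LaurentPolynomial K, f ≠ 0 → ∃ (m : ℤ) (p : K[X]), p.coeff 0 ≠ 0 ∧
      f = toLaurent p * T m := by
    intro f hf
    obtain ⟨n, q, hq⟩ := exists_T_pow f
    have hq0 : q ≠ 0 := by
      rintro rfl
      rw [map_zero] at hq
      exact hf ((mul_eq_zero.1 hq.symm).resolve_right (isUnit_T _).ne_zero)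
    obtain ⟨p, hp, hd⟩ := exists_eq_pow_rootMultiplicity_mul_and_not_dvd q hq0 0
    rw [map_zero, sub_zero] at hp hd
    refine ⟨(rootMultiplicity 0 q : ℤ) - n, p, by rwa [X_dvd_iff] at hd, ?_⟩
    have : f = toLaurent q * T (-n) := by rw [hq, mul_T_assoc]; simp
    rw [this]
    conv_lhs => rw [hp]
    rw [map_mul, toLaurent_X_pow, mul_comm (T _), mul_T_assoc, sub_eq_add_neg]
  have un1 : ∀ (p q : K[X]) (n : ℕ), p.coeff 0 ≠ 0 → toLaurent p = toLaurent q * T n →
      n = 0 ∧ p = q := by
    intro p q n hp e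
    rw [← toLaurent_X_pow, ← map_mul] at e
    have e := toLaurent_injective e
    have : n = 0 := by
      by_contra hn
      apply hp
      rw [e, mul_coeff_zero, coeff_X_pow, if_neg (Ne.symm hn), mul_zero]
    subst this
    exact ⟨rfl, by simpa using e⟩
  have un : ∀ (p q : K[X]) (m n : ℤ), p.coeff 0 ≠ 0 → q.coeff 0 ≠ 0 →
      toLaurent p * T m = toLaurent q * T n → m = n ∧ p = q := by
    intro p q m n hp hq e
    rcases le_total m n with hle | hle
    · obtain ⟨k, rfl⟩ := Int.le.dest hle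
      have := un1 p q k hp (by
        have := congrArg (· * T (-m)) e
        simpa [mul_T_assoc] using this)
      exact ⟨by simp [this.1], this.2⟩
    · obtain ⟨k, rfl⟩ := Int.le.dest hle
      have := un1 q p k hq (by
        have := congrArg (· * T (-n)) e
        simpa [mul_T_assoc] using this.symm)
      exact ⟨by simp [this.1], this.2.symm⟩
  choose m p hp e using fun a => ex (χ a) (h.1 a)
  have rel : ∀ a b, m a + m b = m 0 + m (a + b) ∧ p a * p b = p 0 * p (a + b) := by
    intro a b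
    refine un _ _ _ _ (by rw [mul_coeff_zero]; exact mul_ne_zero (hp _) (hp _))
      (by rw [mul_coeff_zero]; exact mul_ne_zero (hp _) (hp _)) ?_
    have := h.2 a b
    rw [e a, e b, e 0, e (a + b)] at this
    rw [map_mul, map_mul, T_add, T_add]
    linear_combination this
  have hp0 : ∀ a, p a ≠ 0 := fun a e => hp a (by rw [e]; simp)
  have hF : Fam p := ⟨hp0, fun a b => (rel a b).2⟩
  let l : Z2 →+ ℤ := AddMonoidHom.mk' (fun a => m a - m 0) (fun a b => by
    have := (rel a b).1
    omega)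
  obtain ⟨a, ha, hl⟩ : ∃ a : Z2, a ≠ 0 ∧ l a = 0 := by
    by_cases h0 : l (Pi.single 0 1) = 0
    · exact ⟨_, by intro e; simpa using congrFun e 0, h0⟩
    · refine ⟨l (Pi.single 1 1) • Pi.single 0 1 - l (Pi.single 0 1) • Pi.single 1 1, ?_, ?_⟩
      · intro e
        apply h0
        simpa using congrFun e 1
      · rw [map_sub, map_zsmul, map_zsmul]; simp [mul_comm]
  have hm : m a = m 0 := sub_eq_zero.1 hl
  have hw : ∀ x ∈ (⊤ : Subalgebra K K[X]), ∀ y ∈ (⊤ : Subalgebra K K[X]), x ≠ 0 → y ≠ 0 →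
      (x * y).natDegree = x.natDegree + y.natDegree := fun x _ y _ hx hy => natDegree_mul hx hy
  have hd := w_const ⊤ natDegree hw (fun _ => trivial) hF a
  refine ⟨a, ha, (p a).leadingCoeff / (p 0).leadingCoeff, ?_⟩
  have : p a = ((p a).leadingCoeff / (p 0).leadingCoeff) • p 0 := by
    by_contra hne
    have h1 := w_ge ⊤ natDegree (fun x _ y _ hx hy => mul_ne_zero hx hy) hw (fun _ => trivial) hF a _
      (sub_ne_zero.2 hne)
    have hl0 := leadingCoeff_ne_zero.2 (hp0 0)
    have hc : (p a).leadingCoeff / (p 0).leadingCoeff ≠ 0 :=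
      div_ne_zero (leadingCoeff_ne_zero.2 (hp0 a)) hl0
    have h2 := degree_sub_lt_left (p := p a) (q := ((p a).leadingCoeff / (p 0).leadingCoeff) • p 0)
      (by rw [Polynomial.smul_eq_C_mul, degree_C_mul hc, degree_eq_natDegree (hp0 a),
        degree_eq_natDegree (hp0 0), hd])
      (hp0 a) (by rw [leadingCoeff_smul_of_smul_regular _ (IsSMulRegular.of_ne_zero hc), smul_eq_mul,
        div_mul_cancel₀ _ hl0])
    have := natDegree_lt_natDegree (sub_ne_zero.2 hne) h2
    omega
  generalize (p a).leadingCoeff / (p 0).leadingCoeff = c at this ⊢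
  rw [e a, e 0, hm, this, ← smul_mul_assoc]
  congr 1
  exact map_smul (toLaurentAlg (R := K)) c (p 0)

open Polynomial LaurentPolynomial in
theorem good_base [Nontrivial B] (t u e : B) (htu : t * u = 1) (hut : u * t = 1)
    (he : e * t - t * e = 1) : Good (Algebra.adjoin K {t, u}) := by
  let un : Bˣ := ⟨t, u, htu, hut⟩
  let f : LaurentPolynomial K →ₐ[K] B :=
    AddMonoidAlgebra.lift K B ℤ ((Units.coeHom B).comp (zpowersHom Bˣ un))
  have fT : ∀ n : ℤ, f (T n) = ((un ^ n : Bˣ) : B) := fun n => by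
    simp only [f, T, AddMonoidAlgebra.lift_single, one_smul]
    rfl
  have fp : ∀ p : K[X], f (toLaurent p) = aeval t p := by
    intro p
    induction p using Polynomial.induction_on' with
    | add p q hp hq => rw [map_add, map_add, map_add, hp, hq]
    | monomial n c =>
      rw [toLaurent_C_mul_T, map_mul, fT, aeval_monomial, zpow_natCast, Units.val_pow_eq_pow_val]
      congr 1
      exact f.commutes c
  have hder : ∀ p : K[X], e * aeval t p - aeval t p * e = aeval t (derivative p) := by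
    intro p
    induction p using Polynomial.induction_on with
    | C c => simp [Algebra.commutes]
    | add p q hp hq => rw [map_add, map_add, map_add, ← hp, ← hq]; noncomm_ring
    | monomial n c ih =>
      rw [pow_succ, ← mul_assoc, derivative_mul, derivative_X, mul_one, map_add, map_mul (aeval t) _ X,
        map_mul (aeval t) _ X, ← ih, aeval_X]
      have : e * t = t * e + 1 := by rw [← he]; abel
      rw [← mul_assoc, sub_mul, mul_assoc _ e t, this]
      noncomm_ring
  have hinj0 : ∀ (n : ℕ) (p : K[X]), p.natDegree ≤ n → aeval t p = 0 → p = 0 := by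
    intro n
    induction n with
    | zero =>
      intro p hp h
      rw [eq_C_of_natDegree_le_zero hp] at h ⊢
      rw [aeval_C, map_eq_zero] at h
      rw [h, map_zero]
    | succ n ih =>
      intro p hp h
      have h1 := ih (derivative p) ((natDegree_derivative_le p).trans (by omega))
        (by rw [← hder, h]; simp)
      have h2 := derivative_eq_zero.1 h1
      exact ih p (by omega) h
  have hinj : Function.Injective f := by
    rw [injective_iff_map_eq_zero]
    intro x hx
    obtain ⟨n, q, hq⟩ := exists_T_pow x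
    have : q = 0 := hinj0 _ q le_rfl (by rw [← fp, hq, map_mul, hx, zero_mul])
    rw [this, map_zero] at hq
    exact (mul_eq_zero.1 hq.symm).resolve_right (isUnit_T _).ne_zero
  have hle : ∀ x ∈ Algebra.adjoin K {t, u}, ∃ y, f y = x := by
    have : Algebra.adjoin K {t, u} ≤ f.range := by
      rw [Algebra.adjoin_le_iff]
      rintro x (rfl | rfl)
      · exact ⟨T 1, by simp [fT, un]⟩
      · exact ⟨T (-1), by simp [fT, un]⟩
    exact fun x hx => this hx
  constructor
  · intro x hx y hy hx0 hy0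
    obtain ⟨x, rfl⟩ := hle x hx
    obtain ⟨y, rfl⟩ := hle y hy
    rw [← map_mul, map_ne_zero_iff _ hinj] at *
    exact mul_ne_zero hx0 hy0
  · intro χ hS h
    choose ξ hξ using fun a => hle _ (hS a)
    obtain ⟨a, ha, c, hc⟩ := good_laurent.2 ξ (fun _ => trivial)
      ⟨fun a e => h.1 a (by rw [← hξ, e, map_zero]), fun a b => hinj (by
        rw [map_mul, map_mul, hξ, hξ, hξ, hξ]; exact h.2 a b)⟩
    exact ⟨a, ha, c, by rw [← hξ, ← hξ, hc, map_smul]⟩

end Pool.Agent.H.MP_4da284_al
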