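import Mathlib

set_option autoImplicit false

namespace Pool.Agent.H.MP_4da284_al

open FreeAlgebra

variable (K : Type) [Field K]

/-- relations of the Weyl algebra A_k: generators inl i = s_i, inr i = d_i -/
def wrel (k : ℕ) (a b : FreeAlgebra K (Fin k ⊕ Fin k)) : Prop :=
  ∃ i j : Fin k,
    (a = ι K (Sum.inl i) * ι K (Sum.inl j) ∧ b = ι K (Sum.inl j) * ι K (Sum.inl i)) ∨
    (a = ι K (Sum.inr i) * ι K (Sum.inr j) ∧ b = ι K (Sum.inr j) * ι K (Sum.inr i)) ∨
    (a = ι K (Sum.inr i) * ι K (Sum.inl j) - ι K (Sum.inl j) * ι K (Sum.inr i) ∧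
      b = if i = j then 1 else 0)

abbrev Weyl (k : ℕ) : Type := RingQuot (wrel K k)

/-- relations of K[t,1/t,d]: generators 0 = t, 1 = inverse of t, 2 = d -/
def lrel (a b : FreeAlgebra K (Fin 3)) : Prop :=
  (a = ι K 0 * ι K 1 ∧ b = 1) ∨ (a = ι K 1 * ι K 0 ∧ b = 1) ∨
    (a = ι K 2 * ι K 0 - ι K 0 * ι K 2 ∧ b = 1)

abbrev LW1 : Type := RingQuot (lrel K)

/-- the algebra K[t,1/t,d] tensor A_j -/
abbrev AT (j : ℕ) : Type := TensorProduct K (LW1 K) (Weyl K j)

/-- relations of U(W): generator n = t^(n+1) d -/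
def zrel (a b : FreeAlgebra K ℤ) : Prop :=
  ∃ m n : ℤ, a = ι K m * ι K n - ι K n * ι K m ∧ b = ((n : K) - (m : K)) • ι K (m + n)

abbrev UW : Type := RingQuot (zrel K)

/-- relations of U(Vir): generator some n = e_n, none = z -/
def vrel (a b : FreeAlgebra K (Option ℤ)) : Prop :=
  (∃ m n : ℤ, a = ι K (some m) * ι K (some n) - ι K (some n) * ι K (some m) ∧
    b = ((n : K) - (m : K)) • ι K (some (m + n)) +
      (if m + n = 0 then ((m : K) ^ 3 - m) / 12 else 0) • ι K none) ∨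
  (∃ n : ℤ, a = ι K none * ι K (some n) ∧ b = ι K (some n) * ι K none)

abbrev UVir : Type := RingQuot (vrel K)

/-- some primitive ideal of U is not the kernel of any algebra map to any AT j -/
def Fails (U : Type) [Ring U] [Algebra K U] : Prop :=
  ∃ (M : Type) (_ : AddCommGroup M) (_ : Module U M), IsSimpleModule U M ∧
    ∀ (j : ℕ) (φ : U →ₐ[K] AT K j), RingHom.ker φ ≠ Module.annihilator U M

end Pool.Agent.H.MP_4da284_al
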