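import Pool.Agent.H.MP_4da284_al.A
import Pool.Agent.H.MP_4da284_al.Defs

set_option autoImplicit false

namespace Pool.Agent.H.MP_4da284_al

open TensorProduct

variable {K B : Type} [Field K] [CharZero K] [Ring B] [Algebra K B]

theorem weyl_good [Nontrivial B] {j : ℕ} (t u e : B) (x d : Fin j → B) (htu : t * u = 1)
    (hut : u * t = 1) (he : e * t - t * e = 1)
    (h1 : ∀ i, ∀ s ∈ ({e, t, u} : Set B), x i * s = s * x i)
    (h2 : ∀ i, ∀ s ∈ ({e, t, u} : Set B), d i * s = s * d i)
    (hxx : ∀ i k, x i * x k = x k * x i) (hdd : ∀ i k, d i * d k = d k * d i)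
    (hdx : ∀ i k, d i * x k - x k * d i = if i = k then 1 else 0) (S : Finset (Fin j)) :
    Good (Algebra.adjoin K (({e, t, u} : Set B) ∪ x '' S ∪ d '' S)) := by
  induction S using Finset.induction_on with
  | empty =>
    simp only [Finset.coe_empty, Set.image_empty, Set.union_empty]
    refine ore_step {t, u} e (-t) ?_ ?_ (by rw [← he]; noncomm_ring) (good_base t u e htu hut he)
    · rintro s (rfl | rfl)
      · simp
      · simp [htu, hut]
    · rintro s (rfl | rfl)
      · rw [he]; exact Subalgebra.one_mem _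
      · have : e * s - s * e = - (s * (e * t - t * e) * s) := by
          rw [mul_sub, sub_mul, mul_assoc, mul_assoc, htu, ← mul_assoc s t, hut]; simp
        rw [this, he, mul_one]
        exact Subalgebra.neg_mem _ (Subalgebra.mul_mem _ (Algebra.subset_adjoin (by simp))
          (Algebra.subset_adjoin (by simp)))
  | insert i S hi ih =>
    have hx : ∀ s ∈ (({e, t, u} : Set B) ∪ x '' S ∪ d '' S), x i * s = s * x i := by
      rintro s ((hs | ⟨k, -, rfl⟩) | ⟨k, hk, rfl⟩)
      · exact h1 i s hs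
      · exact hxx i k
      · have := hdx k i
        rw [if_neg (by rintro rfl; exact hi hk)] at this
        exact (sub_eq_zero.1 this).symm
    have hd : ∀ s ∈ (({e, t, u} : Set B) ∪ x '' S ∪ d '' S), d i * s = s * d i := by
      rintro s ((hs | ⟨k, hk, rfl⟩) | ⟨k, -, rfl⟩)
      · exact h2 i s hs
      · have := hdx i k
        rw [if_neg (by rintro rfl; exact hi hk)] at this
        exact sub_eq_zero.1 this
      · exact hdd i k
    have hii : d i * x i - x i * d i = 1 := by rw [hdx, if_pos rfl]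
    have g1 := ore_step _ (x i) (d i) hd
      (fun s hs => by rw [hx s hs, sub_self]; exact Subalgebra.zero_mem _) hii ih
    have g2 := ore_step _ (d i) (-x i) (by
        rintro s (rfl | hs)
        · simp
        · rw [neg_mul, hx s hs, mul_neg])
      (by
        rintro s (rfl | hs)
        · rw [hii]; exact Subalgebra.one_mem _
        · rw [hd s hs, sub_self]; exact Subalgebra.zero_mem _)
      (by rw [← hii]; noncomm_ring) g1
    convert g2 using 2
    rw [Finset.coe_insert, Set.image_insert_eq, Set.image_insert_eq, Set.union_insert,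
      Set.union_insert, Set.insert_union]

omit [CharZero K] in
theorem free_mem {X : Type} (f : FreeAlgebra K X →ₐ[K] B) (S : Subalgebra K B)
    (h : ∀ i, f (FreeAlgebra.ι K i) ∈ S) (y : FreeAlgebra K X) : f y ∈ S := by
  induction y using FreeAlgebra.induction with
  | grade0 r => rw [AlgHom.commutes]; exact S.algebraMap_mem r
  | grade1 n => exact h n
  | mul a b ha hb => rw [map_mul]; exact S.mul_mem ha hb
  | add a b ha hb => rw [map_add]; exact S.add_mem ha hb

theorem gen_good {j : ℕ} (f : FreeAlgebra K (Fin 3) →ₐ[K] B) (g : FreeAlgebra K (Fin j ⊕ Fin j) →ₐ[K] B)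
    (hf : ∀ a b, lrel K a b → f a = f b) (hg : ∀ a b, wrel K j a b → g a = g b)
    (hfg : ∀ a b, g b * f a = f a * g b)
    (hgen : ∀ S : Subalgebra K B, (∀ a b, f a * g b ∈ S) → ∀ z, z ∈ S)
    (χ : Z2 → B) (h : Fam χ) : ∃ a, a ≠ 0 ∧ ∃ c : K, χ a = c • χ 0 := by
  have : Nontrivial B := ⟨⟨χ 0, 0, h.1 0⟩⟩
  have G := weyl_good (K := K) (f (FreeAlgebra.ι K 0)) (f (FreeAlgebra.ι K 1)) (f (FreeAlgebra.ι K 2))
    (fun i => g (FreeAlgebra.ι K (Sum.inl i))) (fun i => g (FreeAlgebra.ι K (Sum.inr i)))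
    (by rw [← map_mul, hf _ _ (Or.inl ⟨rfl, rfl⟩), map_one])
    (by rw [← map_mul, hf _ _ (Or.inr (Or.inl ⟨rfl, rfl⟩)), map_one])
    (by rw [← map_mul, ← map_mul, ← map_sub, hf _ _ (Or.inr (Or.inr ⟨rfl, rfl⟩)), map_one])
    (by rintro i s (rfl | rfl | rfl) <;> exact hfg _ _)
    (by rintro i s (rfl | rfl | rfl) <;> exact hfg _ _)
    (fun i k => by rw [← map_mul, hg _ _ ⟨i, k, Or.inl ⟨rfl, rfl⟩⟩, map_mul])
    (fun i k => by rw [← map_mul, hg _ _ ⟨i, k, Or.inr (Or.inl ⟨rfl, rfl⟩)⟩, map_mul])
    (fun i k => by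
      rw [← map_mul, ← map_mul, ← map_sub, hg _ _ ⟨i, k, Or.inr (Or.inr ⟨rfl, rfl⟩)⟩]
      split_ifs <;> simp) Finset.univ
  refine G.2 χ (fun a => hgen _ (fun a b => ?_) _) h
  refine Subalgebra.mul_mem _ (free_mem f _ (fun i => Algebra.subset_adjoin ?_) a)
    (free_mem g _ (fun i => Algebra.subset_adjoin ?_) b)
  · fin_cases i <;> simp
  · rcases i with i | i
    · exact Or.inl (Or.inr ⟨i, by simp, rfl⟩)
    · exact Or.inr ⟨i, by simp, rfl⟩

theorem AT_good (j : ℕ) (χ : Z2 → AT K j) (h : Fam χ) : ∃ a, a ≠ 0 ∧ ∃ c : K, χ a = c • χ 0 := by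
  refine gen_good (Algebra.TensorProduct.includeLeft.comp (RingQuot.mkAlgHom K (lrel K)))
    (Algebra.TensorProduct.includeRight.comp (RingQuot.mkAlgHom K (wrel K j)))
    (fun a b r => ?_) (fun a b r => ?_) (fun a b => ?_) (fun S hS z => ?_) χ h
  · simp only [AlgHom.comp_apply, RingQuot.mkAlgHom_rel K r]
  · simp only [AlgHom.comp_apply, RingQuot.mkAlgHom_rel K r]
  · simp only [AlgHom.comp_apply, Algebra.TensorProduct.includeLeft_apply,
      Algebra.TensorProduct.includeRight_apply, Algebra.TensorProduct.tmul_mul_tmul, mul_one, one_mul]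
  · induction z using TensorProduct.induction_on with
    | zero => exact S.zero_mem
    | add a b ha hb => exact S.add_mem ha hb
    | tmul a b =>
      obtain ⟨a, rfl⟩ := RingQuot.mkAlgHom_surjective K _ a
      obtain ⟨b, rfl⟩ := RingQuot.mkAlgHom_surjective K _ b
      have := hS a b
      simp only [AlgHom.comp_apply, Algebra.TensorProduct.includeLeft_apply,
        Algebra.TensorProduct.includeRight_apply, Algebra.TensorProduct.tmul_mul_tmul, mul_one,
        one_mul] at this
      exact this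

end Pool.Agent.H.MP_4da284_al
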