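import Pool.Agent.H.MP_4da284_al.B

set_option autoImplicit false
set_option linter.unusedSectionVars false

namespace Pool.Agent.H.MP_4da284_al

section Act
variable (K : Type) [Field K] {Γ X : Type} [AddCommGroup Γ] [AddCommGroup X] [Module K X]

def shf (u : Γ) : Module.End K (Γ → X) where
  toFun f := fun n => f (n + u)
  map_add' _ _ := rfl
  map_smul' _ _ := rfl

def shHom : Multiplicative Γ →* Module.End K (Γ → X) where
  toFun u := shf K u.toAdd
  map_one' := by ext f n; simp [shf]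
  map_mul' u v := by
    ext f n
    simp [shf, add_assoc]

variable {K}

noncomputable def act : AddMonoidAlgebra K Γ →ₐ[K] Module.End K (Γ → X) :=
  AddMonoidAlgebra.lift K _ Γ (shHom K)

theorem act_single (u : Γ) (r : K) (f : Γ → X) (n : Γ) :
    act (AddMonoidAlgebra.single u r) f n = r • f (n + u) := by
  simp [act, AddMonoidAlgebra.lift_single, shHom, shf]

noncomputable def dl (u : Γ) : AddMonoidAlgebra K Γ := AddMonoidAlgebra.single u 1 - 1

theorem act_dl (u : Γ) (f : Γ → X) : act (K := K) (dl u) f = fwdDiff u f := by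
  funext n
  simp [dl, act_single, fwdDiff]

theorem act_dl_pow (u : Γ) (N : ℕ) (f : Γ → X) :
    act (K := K) (dl u ^ N) f = (fwdDiff u)^[N] f := by
  induction N with
  | zero => simp
  | succ N ih => rw [pow_succ', map_mul, Module.End.mul_apply, ih, act_dl, Function.iterate_succ_apply']

theorem act_map {Y : Type} [AddCommGroup Y] [Module K Y] (ψ : X →ₗ[K] Y)
    (G : AddMonoidAlgebra K Γ) (f : Γ → X) (n : Γ) :
    ψ (act G f n) = act G (fun n => ψ (f n)) n := by
  induction G using AddMonoidAlgebra.induction_linear with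
  | zero => simp
  | add a b ha hb => simp only [map_add, LinearMap.add_apply, Pi.add_apply, ha, hb]
  | single u c => simp [act_single]

end Act

open MvPolynomial

variable {K : Type} [Field K] [CharZero K]

abbrev MM (K : Type) [Field K] : Type := MvPolynomial (Fin 2) K

noncomputable def sh (a : Z2) : MM K →ₐ[K] MM K := aeval fun i => X i + C (a i : K)

theorem sh_X (a : Z2) (i : Fin 2) : sh a (X i : MM K) = X i + C (a i : K) := by simp [sh]

theorem sh_C (a : Z2) (c : K) : sh a (C c : MM K) = C c := by simp [sh]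

theorem sh_sh (a b : Z2) (g : MM K) : sh a (sh b g) = sh (a + b) g := by
  have : (sh a).comp (sh b) = (sh (a + b) : MM K →ₐ[K] MM K) := by
    ext i : 1
    simp [sh_X, sh_C, add_assoc]
  exact congrArg (fun f : MM K →ₐ[K] MM K => f g) this

theorem sh_zero (g : MM K) : sh 0 g = g := by
  have : (sh 0 : MM K →ₐ[K] MM K) = AlgHom.id K _ := by
    ext i : 1
    simp [sh_X]
  rw [this]; rfl

noncomputable def NN (a : Z2) : MM K →ₗ[K] Module.End K (MM K) where
  toFun q := ((2 : K) ^ (a 1)) • ((sh (-a)).toLinearMap ∘ₗ LinearMap.mulLeft K q)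
  map_add' p q := LinearMap.ext fun g => by simp [add_mul, smul_add]
  map_smul' c q := LinearMap.ext fun g => by simp [smul_comm c]

theorem NN_apply (a : Z2) (q g : MM K) : NN a q g = ((2 : K) ^ (a 1)) • sh (-a) (q * g) := rfl

theorem NN_mul (a b : Z2) (p q : MM K) : NN a p * NN b q = NN (a + b) (sh b p * q) := by
  refine LinearMap.ext fun g => ?_
  simp only [Module.End.mul_apply, NN_apply, mul_smul_comm, map_smul, map_mul, sh_sh, smul_smul,
    Pi.add_apply, zpow_add₀ (two_ne_zero (α := K)), mul_assoc]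
  rw [show -(a + b) + b = -a by abel, show -a + -b = -(a + b) by abel,
    mul_comm ((2 : K) ^ b 1)]

theorem NN_zero : NN 0 (1 : MM K) = 1 := by
  refine LinearMap.ext fun g => ?_
  simp [NN_apply, sh_zero]

noncomputable def TT (a : Z2) : Module.End K (MM K) := NN a 1

theorem TT_add (a b : Z2) : (TT (a + b) : Module.End K (MM K)) = TT a * TT b := by
  simp [TT, NN_mul]

theorem TT_zero : (TT 0 : Module.End K (MM K)) = 1 := NN_zero

theorem TT_apply (a : Z2) (g : MM K) : TT a g = ((2 : K) ^ (a 1)) • sh (-a) g := by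
  simp [TT, NN_apply]

def al : Fin 2 → ℤ := ![2, -1]

noncomputable def PP (j : Fin 2) (n : ℤ) : Module.End K (MM K) :=
  NN (Pi.single j n) (X j + C ((al j * n : ℤ) : K))

noncomputable def EE (n : ℤ) : Module.End K (MM K) := ∑ j, PP j n

theorem PP_lie (j k : Fin 2) (m n : ℤ) : (PP j m * PP k n - PP k n * PP j m : Module.End K (MM K)) =
    if j = k then ((n : K) - (m : K)) • PP j (m + n) else 0 := by
  rw [PP, PP, NN_mul, NN_mul, add_comm (Pi.single k n : Z2), ← map_sub, map_add (sh _), map_add (sh _),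
    sh_X, sh_X, sh_C, sh_C]
  split_ifs with h
  · subst h
    rw [← Pi.single_add, PP, ← map_smul]
    congr 1
    simp only [Pi.single_eq_same, smul_eq_C_mul, Int.cast_mul, Int.cast_add, map_mul, map_add, map_sub]
    ring
  · rw [Pi.single_eq_of_ne h, Pi.single_eq_of_ne (Ne.symm h)]
    simp [mul_comm]

theorem EE_lie (m n : ℤ) : (EE m * EE n - EE n * EE m : Module.End K (MM K)) =
    ((n : K) - (m : K)) • EE (m + n) := by
  have h00 := PP_lie (K := K) 0 0 m n
  have h01 := PP_lie (K := K) 0 1 m n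
  have h10 := PP_lie (K := K) 1 0 m n
  have h11 := PP_lie (K := K) 1 1 m n
  simp only [if_true, zero_ne_one, one_ne_zero, if_false] at h00 h01 h10 h11
  simp only [EE, Fin.sum_univ_two, smul_add, ← h00, ← h11, mul_add, add_mul]
  rw [sub_eq_zero] at h01 h10
  rw [h01, h10]
  abel

def Sm {ι : Type} (ρ : ι → Fin 2) (n : ι → ℤ) : List ι → Z2
  | [] => 0
  | i :: l => Pi.single (ρ i) (n i) + Sm ρ n l

noncomputable def qq {ι : Type} (ρ : ι → Fin 2) (n : ι → ℤ) : List ι → MM K
  | [] => 1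
  | i :: l => (X (ρ i) + C ((Sm ρ n l (ρ i) + al (ρ i) * n i : ℤ) : K)) * qq ρ n l

theorem prod_PP {ι : Type} (ρ : ι → Fin 2) (n : ι → ℤ) (l : List ι) :
    (l.map fun i => (PP (ρ i) (n i) : Module.End K (MM K))).prod = NN (Sm ρ n l) (qq ρ n l) := by
  induction l with
  | nil => simp [Sm, qq, NN_zero]
  | cons i l ih =>
    rw [List.map_cons, List.prod_cons, ih, PP, NN_mul, Sm, qq, map_add, sh_X, sh_C]
    simp [add_assoc]

theorem Sm_lin {ι : Type} (ρ : ι → Fin 2) (n s : ι → ℤ) (t : ℤ) (l : List ι) :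
    Sm ρ (n + t • s) l = Sm ρ n l + t • Sm ρ s l := by
  induction l with
  | nil => simp [Sm]
  | cons i l ih =>
    simp only [Sm, ih, Pi.add_apply, Pi.smul_apply, Pi.single_add, Pi.single_smul, smul_add]
    abel

theorem qq_poly {ι : Type} (ρ : ι → Fin 2) (n s : ι → ℤ) (l : List ι) :
    ∃ p : Polynomial (MM K), p.natDegree ≤ l.length ∧
      ∀ t : ℤ, qq ρ (n + t • s) l = p.eval (t : MM K) := by
  induction l with
  | nil => exact ⟨1, by simp, fun t => by simp [qq]⟩
  | cons i l ih =>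
    obtain ⟨p, hp, h⟩ := ih
    refine ⟨(Polynomial.C (X (ρ i) + ((Sm ρ n l (ρ i) + al (ρ i) * n i : ℤ) : MM K)) +
      Polynomial.C ((Sm ρ s l (ρ i) + al (ρ i) * s i : ℤ) : MM K) * Polynomial.X) * p, ?_, fun t => ?_⟩
    · refine Polynomial.natDegree_mul_le.trans ?_
      rw [List.length_cons, add_comm l.length]
      refine add_le_add ?_ hp
      compute_degree
    · rw [qq, h, Sm_lin]
      simp
      left
      ring

abbrev G5 : Type := Fin 5 → ℤ

noncomputable def FF (ρ : Fin 5 → Fin 2) (n : G5) : Module.End K (MM K) :=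
  NN (Sm ρ n (List.finRange 5)) (qq ρ n (List.finRange 5))

theorem expand (n : G5) : (List.ofFn fun i => (EE (n i) : Module.End K (MM K))).prod =
    ∑ ρ : Fin 5 → Fin 2, FF ρ n := by
  have := (MultilinearMap.mkPiAlgebraFin K 5 (Module.End K (MM K))).map_sum
    (fun (i : Fin 5) (j : Fin 2) => (PP j (n i) : Module.End K (MM K)))
  simp only [MultilinearMap.mkPiAlgebraFin_apply] at this
  simp only [EE]
  rw [this]
  refine Finset.sum_congr rfl fun ρ _ => ?_
  rw [List.ofFn_eq_map, prod_PP, FF]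

theorem Sm_fin (ρ : Fin 5 → Fin 2) (n : G5) :
    Sm ρ n (List.finRange 5) = ∑ i, Pi.single (ρ i) (n i) := by
  simp [List.finRange_succ, Sm, Fin.sum_univ_succ]

theorem kill (ρ : Fin 5 → Fin 2) (α β : Fin 5) (h : ρ α = ρ β) :
    act (K := K) (dl (Pi.single α 1 - Pi.single β 1 : G5) ^ 6)
      (FF ρ : G5 → Module.End K (MM K)) = 0 := by
  rw [act_dl_pow]
  funext n
  set u : G5 := Pi.single α 1 - Pi.single β 1 with hu
  have hs : Sm ρ u (List.finRange 5) = 0 := by
    rw [Sm_fin]
    simp only [hu, Pi.sub_apply, Pi.single_sub, Finset.sum_sub_distrib]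
    rw [Finset.sum_eq_single α (fun b _ hb => by simp [hb]) (by simp),
      Finset.sum_eq_single β (fun b _ hb => by simp [hb]) (by simp)]
    simp [h]
  obtain ⟨p, hp, hq⟩ := qq_poly (K := K) ρ n u (List.finRange 5)
  have h0 := congrFun (Polynomial.fwdDiff_iter_eq_zero_of_degree_lt (P := p) (n := 6)
    (by simpa using Nat.lt_succ_of_le hp)) 0
  rw [fwdDiff_iter_eq_sum_shift] at h0 ⊢
  have h1 := congrArg (NN (Sm ρ n (List.finRange 5))) h0
  rw [map_sum, Pi.zero_apply, map_zero] at h1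
  rw [Pi.zero_apply, ← h1]
  refine Finset.sum_congr rfl fun k _ => ?_
  rw [map_zsmul, FF, ← natCast_zsmul, Sm_lin, hs, hq]
  simp

def u1 : G5 := ![1, -1, 0, 0, 0]
def u2 : G5 := ![0, 1, -1, 0, 0]
def u3 : G5 := ![0, 0, 0, 1, -1]
def r1 : Fin 5 → Fin 2 := ![0, 0, 0, 1, 1]
def r2 : Fin 5 → Fin 2 := ![1, 1, 1, 0, 0]

noncomputable def GAB : AddMonoidAlgebra K G5 :=
  dl u1 * (dl u2 * (dl u2 * (dl u3 * dl u3))) + (2 : K) • (dl u1 * (dl u1 * (dl u2 * (dl u3 * dl u3))))

theorem act_inv (S : G5 → Z2) (u : G5) (h : ∀ n, S (n + u) = S n) (f : G5 → MM K) :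
    act (K := K) (dl u) (fun n => NN (S n) (f n)) = fun n => NN (S n) (fwdDiff u f n) := by
  rw [act_dl]
  funext n
  simp [fwdDiff, h]

theorem GAB_act (ρ : Fin 5 → Fin 2) (h1 : ρ 0 = ρ 1) (h2 : ρ 1 = ρ 2) (h3 : ρ 3 = ρ 4) (c : K)
    (h : ∀ n, fwdDiff u1 (fwdDiff u2 (fwdDiff u2 (fwdDiff u3 (fwdDiff u3
      (fun n => (qq ρ n (List.finRange 5) : MM K)))))) n + (2 : K) • fwdDiff u1 (fwdDiff u1 (fwdDiff u2
      (fwdDiff u3 (fwdDiff u3 (fun n => (qq ρ n (List.finRange 5) : MM K)))))) n = c • 1) :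
    act (K := K) GAB (FF ρ : G5 → Module.End K (MM K)) = fun n => c • TT (Sm ρ n (List.finRange 5)) := by
  have i0 : ∀ n u : G5, Sm ρ (n + u) (List.finRange 5) =
      Sm ρ n (List.finRange 5) + Sm ρ u (List.finRange 5) := fun n u => by
    simpa using Sm_lin ρ n u 1 (List.finRange 5)
  have i1 : ∀ n : G5, Sm ρ (n + u1) (List.finRange 5) = Sm ρ n (List.finRange 5) := fun n => by
    rw [i0, Sm_fin ρ u1]; simp [Fin.sum_univ_succ, u1, Pi.single_neg, h1]
  have i2 : ∀ n : G5, Sm ρ (n + u2) (List.finRange 5) = Sm ρ n (List.finRange 5) := fun n => by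
    rw [i0, Sm_fin ρ u2]; simp [Fin.sum_univ_succ, u2, Pi.single_neg, h2]
  have i3 : ∀ n : G5, Sm ρ (n + u3) (List.finRange 5) = Sm ρ n (List.finRange 5) := fun n => by
    rw [i0, Sm_fin ρ u3]; simp [Fin.sum_univ_succ, u3, Pi.single_neg, h3]
  unfold FF
  simp only [GAB, map_add, map_smul, map_mul, LinearMap.add_apply, LinearMap.smul_apply,
    Module.End.mul_apply, act_inv (fun n => Sm ρ n (List.finRange 5)) _ i1,
    act_inv (fun n => Sm ρ n (List.finRange 5)) _ i2, act_inv (fun n => Sm ρ n (List.finRange 5)) _ i3]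
  funext n
  rw [Pi.add_apply, Pi.smul_apply, ← map_smul, ← map_add, h, map_smul, TT]

end Pool.Agent.H.MP_4da284_al
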