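import Pool.Agent.H.MP_4da284_al.C

set_option autoImplicit false
set_option linter.unusedSectionVars false

namespace Pool.Agent.H.MP_4da284_al

open MvPolynomial

variable {K : Type} [Field K] [CharZero K]

theorem uvals : (u1 0 = 1 ∧ u1 1 = -1 ∧ u1 2 = 0 ∧ u1 3 = 0 ∧ u1 4 = 0) ∧
    (u2 0 = 0 ∧ u2 1 = 1 ∧ u2 2 = -1 ∧ u2 3 = 0 ∧ u2 4 = 0) ∧
    (u3 0 = 0 ∧ u3 1 = 0 ∧ u3 2 = 0 ∧ u3 3 = 1 ∧ u3 4 = -1) := by decide

def fA {R : Type} [CommRing R] (x α : R) (n : G5) : R :=
  (x + (n 1 + n 2 + α * n 0)) * (x + (n 2 + α * n 1)) * (x + α * n 2)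

def fB {R : Type} [CommRing R] (x β : R) (n : G5) : R := (x + (n 4 + β * n 3)) * (x + β * n 4)

theorem fAB {R : Type} [CommRing R] (x α y β : R) (n : G5) :
    fwdDiff u1 (fwdDiff u2 (fwdDiff u2 (fwdDiff u3 (fwdDiff u3
      (fun n => fA x α n * fB y β n))))) n + 2 * fwdDiff u1 (fwdDiff u1 (fwdDiff u2
      (fwdDiff u3 (fwdDiff u3 (fun n => fA x α n * fB y β n))))) n =
      (2 * α * (α - 1) * (α + 1)) * (-2 * β * (β - 1)) := by
  have h1 : fwdDiff u3 (fwdDiff u3 (fun n => fA x α n * fB y β n)) =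
      fun n => fA x α n * (-2 * β * (β - 1)) := by
    funext n
    have e : ∀ n, fA x α (n + u3) = fA x α n := fun n => by
      simp only [fA, Pi.add_apply, uvals, add_zero]
    simp only [fwdDiff, e]
    generalize fA x α n = z
    simp only [fB, Pi.add_apply, uvals]
    push_cast
    ring
  rw [h1]
  generalize -2 * β * (β - 1) = z
  simp only [fwdDiff, fA, Pi.add_apply, uvals]
  push_cast
  ring

theorem qq_r1 (n : G5) : (qq r1 n (List.finRange 5) : MM K) = fA (X 0) 2 n * fB (X 1) (-1) n := by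
  simp [List.finRange_succ, qq, Sm, r1, al, fA, fB, map_ofNat, mul_assoc]

theorem qq_r2 (n : G5) : (qq r2 n (List.finRange 5) : MM K) = fA (X 1) (-1) n * fB (X 0) 2 n := by
  simp [List.finRange_succ, qq, Sm, r2, al, fA, fB, map_ofNat, mul_assoc]

theorem GAB_r1 : act (K := K) GAB (FF r1 : G5 → Module.End K (MM K)) =
    fun n => (-48 : K) • TT (Sm r1 n (List.finRange 5)) := by
  refine GAB_act r1 rfl rfl rfl _ fun n => ?_
  simp only [qq_r1, smul_eq_C_mul, map_neg, map_ofNat, fAB]
  norm_num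

theorem GAB_r2 : act (K := K) GAB (FF r2 : G5 → Module.End K (MM K)) = 0 := by
  rw [GAB_act r2 rfl rfl rfl 0 fun n => ?_]
  · funext n; simp
  simp only [qq_r2, smul_eq_C_mul, map_zero, map_ofNat, fAB]
  norm_num

def ee (i : Fin 5) : G5 := Pi.single i 1

noncomputable def cross : AddMonoidAlgebra K G5 :=
  ∏ x ∈ ({0, 1, 2} : Finset (Fin 5)) ×ˢ ({3, 4} : Finset (Fin 5)), dl (ee x.1 - ee x.2) ^ 6

theorem classify : ∀ ρ : Fin 5 → Fin 2, ρ = r1 ∨ ρ = r2 ∨
    ∃ x ∈ ({0, 1, 2} : Finset (Fin 5)) ×ˢ ({3, 4} : Finset (Fin 5)), ρ x.1 = ρ x.2 := by decide +kernel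

theorem smx : ∀ x ∈ ({0, 1, 2} : Finset (Fin 5)) ×ˢ ({3, 4} : Finset (Fin 5)),
    Sm r1 (ee x.1 - ee x.2) (List.finRange 5) = ![1, -1] := by decide +kernel

noncomputable def gam : Module.End K (MM K) := TT ![1, -1] - 1

theorem act_TT (u : G5) (c : Z2) (h : ∀ n, Sm r1 (n + u) (List.finRange 5) =
    c + Sm r1 n (List.finRange 5)) (P : Module.End K (MM K)) (hP : P * TT c = TT c * P) (k : ℕ) :
    act (K := K) (dl u ^ k) (fun n => P * TT (Sm r1 n (List.finRange 5))) =
      fun n => ((TT c - 1) ^ k * P) * TT (Sm r1 n (List.finRange 5)) := by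
  induction k with
  | zero => simp
  | succ k ih =>
    rw [pow_succ', map_mul, Module.End.mul_apply, ih, act_dl]
    funext n
    rw [fwdDiff, h, TT_add, pow_succ]
    simp only [mul_assoc, sub_mul, one_mul, mul_sub]
    rw [← mul_assoc P, hP, mul_assoc]

theorem main_id (a : Z2) : ∃ G : AddMonoidAlgebra K G5, ∃ n0 : G5,
    act G (fun n : G5 => (List.ofFn fun i => (EE (n i) : Module.End K (MM K))).prod) n0 =
      ((-48 : K) • gam ^ 36) * TT a := by
  refine ⟨cross * GAB, ![a 0, 0, 0, a 1, 0], ?_⟩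
  have e : (fun n : G5 => (List.ofFn fun i => (EE (n i) : Module.End K (MM K))).prod) =
      ∑ ρ : Fin 5 → Fin 2, FF ρ := by
    funext n; rw [expand, Finset.sum_apply]
  rw [e, map_sum, Finset.sum_eq_single r1]
  · rw [map_mul, Module.End.mul_apply, GAB_r1]
    have key : ∀ S : Finset (Fin 5 × Fin 5),
        S ⊆ ({0, 1, 2} : Finset (Fin 5)) ×ˢ ({3, 4} : Finset (Fin 5)) →
        act (K := K) (∏ x ∈ S, dl (ee x.1 - ee x.2) ^ 6)
          (fun n => (-48 : K) • (TT (Sm r1 n (List.finRange 5)) : Module.End K (MM K))) =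
        fun n => ((-48 : K) • gam ^ (6 * S.card)) * TT (Sm r1 n (List.finRange 5)) := by
      intro S
      induction S using Finset.induction_on with
      | empty =>
        intro _
        funext n
        rw [Finset.prod_empty, map_one, Finset.card_empty, mul_zero, pow_zero, smul_mul_assoc, one_mul]
        rfl
      | insert x S hx ih =>
        intro hS
        rw [Finset.prod_insert hx, map_mul, Module.End.mul_apply,
          ih ((Finset.subset_insert _ _).trans hS), act_TT _ ![1, -1], Finset.card_insert_of_notMem hx]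
        · funext n
          rw [mul_smul_comm, ← gam, ← pow_add]
          congr 3
          ring
        · intro n
          have i0 := Sm_lin r1 n (ee x.1 - ee x.2) 1 (List.finRange 5)
          rw [one_smul, one_smul] at i0
          rw [i0, add_comm]
          congr 1
          exact smx x (hS (Finset.mem_insert_self x S))
        · have : Commute (gam : Module.End K (MM K)) (TT ![1, -1]) :=
            (Commute.refl _).sub_left (Commute.one_left _)
          exact ((this.pow_left _).smul_left _).eq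
    rw [cross, key _ le_rfl]
    have : Sm r1 ![a 0, 0, 0, a 1, 0] (List.finRange 5) = a := by
      rw [Sm_fin]
      funext i
      fin_cases i <;> simp [Fin.sum_univ_succ, r1]
    have hc : 6 * (({0, 1, 2} : Finset (Fin 5)) ×ˢ ({3, 4} : Finset (Fin 5))).card = 36 := by
      decide +kernel
    simp only [this, hc]
  · intro ρ _ hρ
    rcases classify ρ with h | rfl | ⟨x, hx, h⟩
    · exact absurd h hρ
    · rw [map_mul, Module.End.mul_apply, GAB_r2, map_zero]
    · rw [cross, ← Finset.prod_erase_mul _ _ hx, mul_right_comm, map_mul, Module.End.mul_apply]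
      rw [ee, ee, kill ρ x.1 x.2 h, map_zero]
  · simp

end Pool.Agent.H.MP_4da284_al
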