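import Pool.Agent.H.MP_4da284_al.D

set_option autoImplicit false
set_option linter.unusedSectionVars false

namespace Pool.Agent.H.MP_4da284_al

open MvPolynomial

variable {K : Type} [Field K] [CharZero K]

noncomputable def dS (a : Z2) : Module.End K (MM K) := (sh a).toLinearMap - 1

theorem dS_apply (a : Z2) (g : MM K) : dS a g = sh a g - g := rfl

theorem dS_nil (a : Z2) (g : MM K) : ∃ n, (dS a ^ n) g = 0 := by
  let p : Polynomial (MM K) :=
    aeval (fun i => Polynomial.C (X i : MM K) + Polynomial.C (C (a i : K)) * Polynomial.X) g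
  have hp : ∀ t : ℕ, p.eval (t : MM K) = sh (t • a) g := by
    intro t
    have : ((Polynomial.aeval (t : MM K)).restrictScalars K).comp
        (aeval (fun i => Polynomial.C (X i : MM K) + Polynomial.C (C (a i : K)) * Polynomial.X)) =
        (sh (t • a) : MM K →ₐ[K] MM K) := by
      ext i : 1
      simp [sh_X, mul_comm]
    rw [← this]
    simp [p]
  have h1 : ∀ (n : ℕ) (g : MM K), (fwdDiff 1)^[n] (fun t : ℕ => sh (t • a) g) =
      fun t => sh (t • a) ((dS a ^ n) g) := by
    intro n
    induction n with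
    | zero => intro g; rfl
    | succ n ih =>
      intro g
      have : fwdDiff 1 (fun t : ℕ => sh (t • a) g) = fun t => sh (t • a) (dS a g) := by
        funext t
        rw [fwdDiff, dS_apply, map_sub, sh_sh, succ_nsmul]
      rw [Function.iterate_succ_apply, this, ih, pow_succ]
      rfl
  refine ⟨p.natDegree + 1, ?_⟩
  have h2 := congrFun (h1 (p.natDegree + 1) g) 0
  have h0 := congrFun (Polynomial.fwdDiff_iter_eq_zero_of_degree_lt (P := p) (n := p.natDegree + 1)
    (by omega)) 0
  rw [zero_smul, sh_zero] at h2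
  rw [← h2, fwdDiff_iter_eq_sum_shift]
  rw [fwdDiff_iter_eq_sum_shift] at h0
  simpa [hp] using h0

theorem gam_eq : (gam : Module.End K (MM K)) = (-1 / 2 : K) • (1 - dS ![-1, 1]) := by
  refine LinearMap.ext fun g => ?_
  have : (-![1, -1] : Z2) = ![-1, 1] := by decide
  simp only [gam, LinearMap.sub_apply, TT_apply, this, LinearMap.smul_apply, dS_apply,
    Module.End.one_apply, Matrix.cons_val_one, Matrix.cons_val_zero, zpow_neg, zpow_one]
  module

/-- on a submodule-free level: the inverse of gam is locally a polynomial in gam -/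
theorem gam_sat (N : Submodule K (MM K)) (hN : ∀ g ∈ N, dS ![-1, 1] g ∈ N) (y : MM K)
    (hy : gam y ∈ N) : y ∈ N := by
  rw [gam_eq, LinearMap.smul_apply, Submodule.smul_mem_iff _ (by norm_num)] at hy
  obtain ⟨n, hn⟩ := dS_nil ![-1, 1] y
  have : ∀ k : ℕ, y - (dS ![-1, 1] ^ k) y ∈ N := by
    intro k
    induction k with
    | zero => simp
    | succ k ih =>
      have := N.add_mem hy (hN _ ih)
      rw [pow_succ', Module.End.mul_apply]
      simpa using this
  simpa [hn] using this n

theorem gam_inj (y : MM K) (hy : gam y = 0) : y = 0 := by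
  simpa using gam_sat ⊥ (by simp) y (by simpa using hy)

theorem gam_fin (y : MM K) : ∃ V : Submodule K (MM K), y ∈ V ∧ FiniteDimensional K V ∧
    ∀ v ∈ V, gam v ∈ V := by
  obtain ⟨n, hn⟩ := dS_nil ![-1, 1] y
  refine ⟨Submodule.span K ((fun k => (dS ![-1, 1] ^ k) y) '' Set.Iic n),
    Submodule.subset_span ⟨0, by simp, by simp⟩,
    FiniteDimensional.span_of_finite K ((Set.finite_Iic n).image _), fun v hv => ?_⟩
  rw [gam_eq, LinearMap.smul_apply, LinearMap.sub_apply]
  refine Submodule.smul_mem _ _ (Submodule.sub_mem _ hv ?_)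
  induction hv using Submodule.span_induction with
  | mem v hv =>
    obtain ⟨k, hk, rfl⟩ := hv
    rcases (Set.mem_Iic.1 hk).eq_or_lt with rfl | h
    · simp [hn]
    · exact Submodule.subset_span ⟨k + 1, h, by simp [pow_succ']⟩
  | zero => simp
  | add a b _ _ ha hb => rw [map_add]; exact Submodule.add_mem _ ha hb
  | smul c a _ ha => rw [map_smul]; exact Submodule.smul_mem _ _ ha

theorem pow_inj (k : ℕ) (y : MM K) (hy : (gam ^ k) y = 0) : y = 0 := by
  induction k generalizing y with
  | zero => exact hy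
  | succ k ih => exact gam_inj _ (ih _ (by rwa [pow_succ] at hy))

theorem smul_pow_inj (k : ℕ) (c : K) (hc : c ≠ 0) (P : Module.End K (MM K))
    (hP : (c • gam ^ k) * P = 0) : P = 0 :=
  LinearMap.ext fun g => pow_inj k _ ((smul_eq_zero.1 (LinearMap.congr_fun hP g)).resolve_left hc)

theorem pow_sat (k : ℕ) (N : Submodule K (MM K)) (hN : ∀ g ∈ N, (gam ^ k) g ∈ N) (y : MM K)
    (hy : (gam ^ k) y ∈ N) : y ∈ N := by
  obtain ⟨V, hyV, hV, hst⟩ := gam_fin y
  have hst' : ∀ k : ℕ, ∀ v ∈ V, (gam ^ k) v ∈ V := by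
    intro k
    induction k with
    | zero => exact fun v hv => hv
    | succ k ih => exact fun v hv => by rw [pow_succ]; exact ih _ (hst v hv)
  have : FiniteDimensional K (V ⊓ N : Submodule K (MM K)) :=
    Submodule.finiteDimensional_inf_left _ _
  let f : (V ⊓ N : Submodule K (MM K)) →ₗ[K] (V ⊓ N : Submodule K (MM K)) :=
    (gam ^ k).restrict (fun v hv => ⟨hst' k v hv.1, hN v hv.2⟩)
  have hf : Function.Injective f := by
    rw [injective_iff_map_eq_zero]
    intro v hv
    exact Subtype.ext (pow_inj k _ (congrArg Subtype.val hv))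
  obtain ⟨z, hz⟩ := LinearMap.surjective_of_injective hf ⟨_, hst' k y hyV, hy⟩
  have h1 : (gam ^ k) (y - z.1) = 0 := by
    rw [map_sub, sub_eq_zero]; exact (congrArg Subtype.val hz).symm
  rw [sub_eq_zero.1 (pow_inj k _ h1)]
  exact z.2.2

theorem const_of_inv (g : MM K) (h : ∀ i, dS (Pi.single i 1) g = 0) : ∃ c, g = C c := by
  have h1 : ∀ (i : Fin 2) (n : ℕ), sh (Pi.single i (n : ℤ)) g = g := by
    intro i n
    induction n with
    | zero => simp [sh_zero]
    | succ n ih =>
      rw [Nat.cast_succ, Pi.single_add, ← sh_sh,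
        sub_eq_zero.1 ((dS_apply _ _).symm.trans (h i)), ih]
  have h2 : ∀ a : Fin 2 → ℕ, eval (fun i => (a i : K)) g = eval 0 g := by
    intro a
    have e : sh (fun i => (a i : ℤ)) g = g := by
      have : (fun i => (a i : ℤ)) = Pi.single 0 (a 0 : ℤ) + Pi.single 1 (a 1 : ℤ) := by
        funext i; fin_cases i <;> simp
      rw [this, ← sh_sh, h1, h1]
    conv_rhs => rw [← e]
    have : (aeval (0 : Fin 2 → K)).comp (sh (fun i => (a i : ℤ))) =
        (aeval (fun i => (a i : K)) : MM K →ₐ[K] K) := by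
      ext i : 1
      simp [sh_X]
    exact (congrArg (fun f : MM K →ₐ[K] K => f g) this).symm
  refine ⟨eval 0 g, MvPolynomial.funext_set (fun _ => Set.range (Nat.cast : ℕ → K))
    (fun _ => Set.infinite_range_of_injective Nat.cast_injective) fun x hx => ?_⟩
  choose a ha using fun i => hx i (Set.mem_univ i)
  rw [eval_C, ← h2 a]
  congr 2
  funext i
  exact (ha i).symm

theorem simple (N : Submodule K (MM K)) (hE : ∀ n, ∀ g ∈ N, EE n g ∈ N)
    (hd : ∀ a, ∀ g ∈ N, (((-48 : K) • gam ^ 36) * TT a : Module.End K (MM K)) g ∈ N) (h0 : N ≠ ⊥) : N = ⊤ := by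
  have hd' : ∀ a, ∀ g ∈ N, (gam ^ 36) (TT a g) ∈ N := fun a g hg => by
    have := hd a g hg
    rwa [Module.End.mul_apply, LinearMap.smul_apply, Submodule.smul_mem_iff _ (by norm_num)] at this
  have hT : ∀ a, ∀ g ∈ N, TT a g ∈ N := fun a g hg =>
    pow_sat 36 N (fun g hg => by simpa [TT_zero] using hd' 0 g hg) _ (hd' a g hg)
  have hS : ∀ a, ∀ g ∈ N, dS a g ∈ N := fun a g hg => by
    have := hT (-a) g hg
    rw [TT_apply, neg_neg, Submodule.smul_mem_iff _ (zpow_ne_zero _ two_ne_zero)] at this
    exact N.sub_mem this hg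
  have e0 : ∀ g : MM K, EE 0 g = X 0 * g + X 1 * g := fun g => by
    simp [EE, PP, NN_apply, sh_zero]
  have hN : ∀ (a : Z2) (q g : MM K), NN a q g = TT a (q * g) := fun a q g => by
    rw [NN_apply, TT_apply]
  have hX1 : ∀ g ∈ N, X 1 * g ∈ N := by
    intro g hg
    refine gam_sat N (hS _) _ ?_
    have h1 := hT ![0, -1] _ (hE 1 g hg)
    have h2 := hT ![1, -1] _ (hE 0 g hg)
    have h3 := hT ![1, -1] _ hg
    have a1 : (![0, -1] + Pi.single 0 1 : Z2) = ![1, -1] := by decide
    have a2 : (![0, -1] + Pi.single 1 1 : Z2) = 0 := by decide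
    simp only [EE, Fin.sum_univ_two, LinearMap.add_apply, PP, hN, map_add, ← Module.End.mul_apply,
      ← TT_add, a1, a2, TT_zero] at h1
    rw [e0] at h2
    have := N.sub_mem (N.add_mem (N.sub_mem h2 h1) (N.smul_mem 2 h3)) hg
    convert this using 1
    simp [gam, al, add_mul, map_ofNat, two_mul, two_smul]
    abel
  have hX : ∀ i, ∀ g ∈ N, X i * g ∈ N := by
    intro i g hg
    fin_cases i
    · have := N.sub_mem (hE 0 g hg) (hX1 g hg)
      rw [e0] at this
      simpa using this
    · exact hX1 g hg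
  have hid : ∀ p, ∀ g ∈ N, p * g ∈ N := by
    intro p
    induction p using MvPolynomial.induction_on with
    | C c => intro g hg; rw [← smul_eq_C_mul]; exact N.smul_mem _ hg
    | add p q hp hq => intro g hg; rw [add_mul]; exact N.add_mem (hp g hg) (hq g hg)
    | mul_X p i hp => intro g hg; rw [mul_assoc]; exact hp _ (hX i g hg)
  have step : ∀ (a : Z2) (P : MM K → Prop), (∀ g, P g → P (dS a g)) → ∀ g, g ≠ 0 → P g →
      ∃ g', g' ≠ 0 ∧ P g' ∧ dS a g' = 0 := by
    intro a P hP g hg hPg
    obtain ⟨n, hn⟩ := dS_nil a g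
    induction n generalizing g with
    | zero => exact absurd hn hg
    | succ n ih =>
      by_cases h : dS a g = 0
      · exact ⟨g, hg, hPg, h⟩
      · exact ih _ h (hP g hPg) (by rwa [pow_succ] at hn)
  obtain ⟨g, hg, hg0⟩ := (Submodule.ne_bot_iff N).1 h0
  obtain ⟨g1, h10, h1N, h1⟩ := step (Pi.single 0 1) (· ∈ N) (hS _) g hg0 hg
  obtain ⟨g2, h20, ⟨h2N, h2⟩, h2'⟩ := step (Pi.single 1 1)
    (fun g => g ∈ N ∧ dS (Pi.single 0 1) g = 0) (fun g hg => ⟨hS _ g hg.1, by
      have := hg.2
      rw [dS_apply, sub_eq_zero] at this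
      rw [dS_apply, dS_apply, map_sub, sh_sh, add_comm, ← sh_sh, this, sub_self]⟩) g1 h10 ⟨h1N, h1⟩
  obtain ⟨c, rfl⟩ := const_of_inv g2 (fun i => by fin_cases i; exacts [h2, h2'])
  have hc : c ≠ 0 := by rintro rfl; simp at h20
  rw [eq_top_iff]
  intro p _
  have := hid (p * C c⁻¹) _ h2N
  rwa [mul_assoc, ← map_mul, inv_mul_cancel₀ hc, map_one, mul_one] at this

theorem TT_ne (a : Z2) (ha : a ≠ 0) (c : K) : (TT a : Module.End K (MM K)) ≠ c • 1 := by
  intro h
  have h1 := LinearMap.congr_fun h 1
  simp only [TT_apply, map_one, LinearMap.smul_apply, Module.End.one_apply] at h1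
  have hc : (2 : K) ^ a 1 = c := by
    simpa using congrArg (eval (0 : Fin 2 → K)) h1
  apply ha
  funext i
  have h2 := congrArg (eval (0 : Fin 2 → K)) (LinearMap.congr_fun h (X i))
  simpa [TT_apply, sh_X, zpow_ne_zero] using h2

theorem fails (U : Type) [Ring U] [Algebra K U] (e : ℤ → U) (ψ : U →ₐ[K] Module.End K (MM K))
    (h : ∀ n, ψ (e n) = EE n) : Fails K U := by
  have hu : ∀ a : Z2, ∃ u : U, ψ u = ((-48 : K) • gam ^ 36) * TT a := by
    intro a
    obtain ⟨G, n0, hG⟩ := main_id (K := K) a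
    refine ⟨act G (fun n : G5 => (List.ofFn fun i => e (n i)).prod) n0, ?_⟩
    rw [← hG]
    refine (act_map ψ.toLinearMap G _ n0).trans ?_
    refine congrFun (congrArg _ ?_) _
    funext n
    rw [AlgHom.toLinearMap_apply, map_list_prod, List.map_ofFn]
    congr 2
    funext i
    exact h _
  choose u hu using hu
  have hinj : ∀ P : Module.End K (MM K), ((-48 : K) • gam ^ 36) * P = 0 → P = 0 := by
    intro P hP
    exact smul_pow_inj 36 (-48) (by norm_num) P hP
  have hc : ∀ a, Commute (TT a : Module.End K (MM K)) ((-48 : K) • gam ^ 36) := fun a => by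
    have : Commute (TT a : Module.End K (MM K)) gam :=
      Commute.sub_right (by rw [Commute, SemiconjBy, ← TT_add, ← TT_add, add_comm])
        (Commute.one_right _)
    exact (this.pow_right _).smul_right _
  have hsim := simple (K := K)
  generalize ((-48 : K) • gam ^ 36 : Module.End K (MM K)) = dd at hu hinj hc hsim
  let _ : Module U (MM K) := Module.compHom (MM K) ψ.toRingHom
  have hs : ∀ (x : U) (g : MM K), x • g = ψ x g := fun _ _ => rfl
  refine ⟨MM K, inferInstance, inferInstance, ?_, fun j φ hk => ?_⟩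
  · rw [isSimpleModule_iff]
    refine ⟨fun N => ?_⟩
    let N' : Submodule K (MM K) :=
      { carrier := N
        add_mem' := fun ha hb => N.add_mem ha hb
        zero_mem' := N.zero_mem
        smul_mem' := fun c x hx => by
          have := N.smul_mem (algebraMap K U c) hx
          rw [hs, AlgHom.commutes] at this
          exact this }
    by_cases h0 : N' = ⊥
    · left
      rw [eq_bot_iff]
      intro x hx
      exact (show x ∈ (⊥ : Submodule K (MM K)) from h0 ▸ hx)
    · right
      have := hsim N' (fun n g hg => by rw [← h]; exact N.smul_mem (e n) hg)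
        (fun a g hg => by rw [← hu]; exact N.smul_mem (u a) hg) h0
      rw [eq_top_iff]
      intro x _
      exact (show x ∈ N' from this ▸ trivial)
  · have hker : ∀ x, φ x = 0 ↔ ψ x = 0 := by
      intro x
      rw [← RingHom.mem_ker, hk, Module.mem_annihilator]
      exact ⟨fun h => LinearMap.ext h, fun h g => by rw [hs, h]; rfl⟩
    obtain ⟨a, ha, c, hac⟩ := AT_good j (fun a => φ (u a)) ⟨fun a e => by
        rw [hker, hu] at e
        have := congrArg (· * TT (-a)) (hinj _ e)
        simp only [← TT_add, add_neg_cancel, TT_zero, zero_mul] at this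
        exact one_ne_zero this, fun a b => by
        have : φ (u a * u b - u 0 * u (a + b)) = 0 := by
          rw [hker, map_sub, map_mul, map_mul, hu, hu, hu, hu, TT_zero, TT_add, mul_one, mul_assoc,
            ← mul_assoc (TT a), (hc a).eq, mul_assoc, sub_self]
        rw [map_sub, map_mul, map_mul] at this
        exact sub_eq_zero.1 this⟩
    have : φ (u a - c • u 0) = 0 := by
      rw [map_sub, map_smul]; exact sub_eq_zero.2 hac
    rw [hker, map_sub, map_smul, hu, hu, TT_zero, ← mul_smul_comm c, ← mul_sub] at this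
    exact TT_ne a ha c (sub_eq_zero.1 (hinj _ this))

theorem main : Fails K (UW K) ∧ Fails K (UVir K) := by
  constructor
  · refine fails _ (fun n => RingQuot.mkAlgHom K _ (FreeAlgebra.ι K n))
      (RingQuot.liftAlgHom K ⟨FreeAlgebra.lift K EE, ?_⟩) fun n => ?_
    · rintro x y ⟨m, n, rfl, rfl⟩
      simp only [map_mul, map_sub, map_smul, FreeAlgebra.lift_ι_apply, EE_lie]
    · simp [RingQuot.liftAlgHom_mkAlgHom_apply]
  · refine fails _ (fun n => RingQuot.mkAlgHom K _ (FreeAlgebra.ι K (some n)))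
      (RingQuot.liftAlgHom K ⟨FreeAlgebra.lift K (fun o => o.elim 0 EE), ?_⟩) fun n => ?_
    · rintro x y (⟨m, n, rfl, rfl⟩ | ⟨n, rfl, rfl⟩)
      · simp only [map_mul, map_sub, map_add, map_smul, FreeAlgebra.lift_ι_apply, Option.elim, EE_lie,
          smul_zero, add_zero]
      · simp
    · simp [RingQuot.liftAlgHom_mkAlgHom_apply]

end Pool.Agent.H.MP_4da284_al
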